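import Pool.Agent.K7.H60.MT.Met
import Pool.Agent.K7.H60.MT.Bc

set_option autoImplicit false

namespace Pool.Agent.Results.MP_78b39f_nt.AlmostAllRealMultiples

open Finset Filter

/-- the `n`-th prime, `p 1 = 2` -/
noncomputable def p (n : ℕ) : ℕ := Nat.nth Nat.Prime (n - 1)

/-- the number of the primes in the real interval `[y, y + L]` -/
noncomputable def primesIn (y L : ℝ) : ℕ := {l : ℕ | l.Prime ∧ y ≤ l ∧ (l : ℝ) ≤ y + L}.ncard

open scoped Classical in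
/-- There are `c, δ > 0` such that for almost all real `α > 0`:
(1) for infinitely many `N` at least `δ N` of the `n < N` are such that the interval
`[α 2 ^ n, α 2 ^ n + p_n]` contains at least `c log n` primes;
(2) for every `θ > 0` there is `c' > 0` such that for all large `n` the interval
`(α 2 ^ n, α 2 ^ n + exp (n ^ θ)]` contains integers `a, b` with `b - a ≥ c' p_n` and no prime
in `[a, b]`;
(3) for every `K` and all large `n` the interval `(α 2 ^ n, α 2 ^ n + exp (n / (log n) ^ K)]` contains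
integers `a, b` with `b - a ≥ K p_n` and no prime in `[a, b]`. -/
theorem result : ∃ c δ : ℝ, 0 < c ∧ 0 < δ ∧ ∀ᵐ α : ℝ ∂MeasureTheory.volume, 0 < α →
    (∃ᶠ N : ℕ in atTop, δ * N ≤ (((range N).filter (fun n : ℕ =>
      c * Real.log n ≤ (primesIn (α * 2 ^ n) (p n) : ℝ))).card : ℝ)) ∧
    (∀ θ : ℝ, 0 < θ → ∃ c' : ℝ, 0 < c' ∧ ∀ᶠ n : ℕ in atTop, ∃ a b : ℕ, α * 2 ^ n < a ∧
      (b : ℝ) ≤ α * 2 ^ n + Real.exp ((n : ℝ) ^ θ) ∧ c' * (p n : ℝ) ≤ (b : ℝ) - a ∧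
      ∀ m ∈ Icc a b, ¬ m.Prime) ∧
    ∀ K : ℕ, ∀ᶠ n : ℕ in atTop, ∃ a b : ℕ, α * 2 ^ n < a ∧
      (b : ℝ) ≤ α * 2 ^ n + Real.exp ((n : ℝ) / (Real.log n) ^ K) ∧ K * (p n : ℝ) ≤ (b : ℝ) - a ∧
      ∀ m ∈ Icc a b, ¬ m.Prime := by
  obtain ⟨c, δ, hc, hδ, h⟩ := Pool.Agent.K7.H60.MT.many
  refine ⟨c, δ, hc, hδ, ?_⟩
  filter_upwards [h, Pool.Agent.K7.H60.MT.runs_ae, Pool.Agent.K7.H60.MT.rankin_ae] with α h1 h2 h3 hα
  exact ⟨h1 hα, h2 hα, h3 hα⟩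

end Pool.Agent.Results.MP_78b39f_nt.AlmostAllRealMultiples
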