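import Pool.Agent.K7.H60.LK.Mn

set_option autoImplicit false

namespace Pool.Agent.Results.MP_78b39f_nt.ManyPrimesAboveMultiples

open Finset

/-- There are `C` and `c, δ > 0` such that for all large `n` and all `0 ≤ r < 2 ^ n` the sum of `1 / k`
over the `1 ≤ k ≤ 2 ^ (C n)` for which the interval `[k 2 ^ n + r, k 2 ^ n + r + p_n]` contains at
least `c log n` primes is at least `δ n` (the sum of all the `1 / k`, `k ≤ 2 ^ (C n)`, is
`≍ n`). -/
theorem result : ∃ C : ℕ, ∃ c δ : ℝ, 0 < c ∧ 0 < δ ∧ ∃ n₀ : ℕ, ∀ n : ℕ, n₀ ≤ n → ∀ r : ℕ,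
    r < 2 ^ n → δ * n ≤ ∑ k ∈ (Icc 1 (2 ^ (C * n))).filter (fun k => c * Real.log n ≤
      (((Icc (2 ^ n * k + r) (2 ^ n * k + r + Nat.nth Nat.Prime (n - 1))).filter
        Nat.Prime).card : ℝ)), (1 / (k : ℝ)) :=
  Pool.Agent.K7.H60.LK.main

end Pool.Agent.Results.MP_78b39f_nt.ManyPrimesAboveMultiples
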