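import Pool.Agent.K7.H60.SQ.MulR

set_option autoImplicit false

namespace Pool.Agent.Results.MP_78b39f_nt.RecordGapsAfterMultiples

open Finset

open scoped Classical in
/-- Let `δ > 0`, `D`, `E`, `A` be given.  Then for all large `n`, all `q` with
`2 ^ (δ n) ≤ q ≤ 2 ^ (D n)` (for instance `q = 2 ^ n`), all `r` and all `K ≥ 2 ^ (δ n)`, all but
`K / n ^ A` of the `k < K` are such that `(q k + r, q k + r + exp (n / (log n) ^ E)]` contains
a run of consecutive composite numbers of length at least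
`c n (log n)² log log log n / (log log n)²`; this is more than any fixed multiple of
`p_n ~ n log n`. -/
theorem result (δ D : ℝ) (hδ : 0 < δ) (E A : ℕ) :
    ∃ c : ℝ, 0 < c ∧ ∃ n₀ : ℕ, ∀ n : ℕ, n₀ ≤ n → ∀ q r K : ℕ,
      (2 : ℝ) ^ (δ * n) ≤ q → (q : ℝ) ≤ 2 ^ (D * n) → (2 : ℝ) ^ (δ * n) ≤ K →
      (((range K).filter (fun k => ¬ ∃ a b : ℕ, q * k + r < a ∧
        (b : ℝ) ≤ ((q * k + r : ℕ) : ℝ) + Real.exp ((n : ℝ) / (Real.log n) ^ E) ∧
        c * (n * (Real.log n) ^ 2 * Real.log (Real.log (Real.log n)) /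
          (Real.log (Real.log n)) ^ 2) ≤ (b : ℝ) - a ∧
        ∀ m ∈ Icc a b, ¬ m.Prime)).card : ℝ) ≤ K / (n : ℝ) ^ A :=
  Pool.Agent.K7.H60.SQ.mul_record δ D hδ E A

end Pool.Agent.Results.MP_78b39f_nt.RecordGapsAfterMultiples
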